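import Pool.Agent.V8H90.VG.Uni2
import Pool.Agent.V8H90.HY.Weak
import Pool.Agent.V8H90.HY.Fin
import Pool.Agent.V8H90.AJ.Weak

/-!
# Nonvanishing for pairs whose map to projective space has many members of small multiplicity:
general and very general hypersurfaces

Let `(X, Δ)` be a projective log canonical pair and `X ⇢ P^n` a rational map, given by a linear
system without fixed components on `X`; its image may be any subvariety of `P^n`, of dimension
`p ≥ 1`. Suppose that the open fibres of `X - Supp ⌊Δ⌋` over the image are very affine: the function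
field of `X` is generated by functions `t j` and the algebraic closure in it of the function field of
the image, and the zeros and poles of the `t j` over the generic point of the image have
coefficient `1` in `Δ`. (If the map is generically finite onto its image, then this is no condition.)

For a form `H a` of degree `d a` and a prime divisor `P` of `X`, let `e a` be the multiplicity of `P` in
the member of the linear system (of the forms of degree `d a`) which is given by `H a` (`mult`): the
order of `H a (b)` at `P` minus `d a` times the smallest order of the homogeneous coordinates `b` of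
the map. In the following two cases `K_X + Δ` is `ℚ`-effective, its Kodaira dimension is equal to its
numerical dimension, and it is at least `p` (`WeaklyAbundant`); in particular `K_X + Δ` is big if the
map is generically finite onto its image.

(1) The `H i`, `i < q`, are general forms of any degrees `d i ≥ 1` (some polynomial `Ψ`, which depends
only on `n`, `m` and the degrees, does not vanish at their coefficients), `m ≥ 2`,

  `2 n (2 n + 1) m ^ 2 ≤ (m - 1) ^ 2 (q - 2 n - 3)`,

and, for all prime divisors `P` of `X` and all `i` such that the image is not in `H i = 0`, `e i = 0`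
or `e i ≥ m (1 - Δ_P)`. For `m = 2` the inequality is `q ≥ 16 n ^ 2 + 10 n + 3`. For general
hyperplanes, and if the image is in none of them, `4 m ^ 2 n ^ 2 + 2 n ≤ (m - 1) ^ 2 (q - 3)` is enough
(part (3) of the theorem), for `m = 2` this is `q ≥ 16 n ^ 2 + 2 n + 3`.

(2) The image lies in a closed subset `V` of `P^n`, of dimension at most `r` and defined over a
subfield `k` of `ℂ`; the `H a`, `a ∈ A`, are very general forms of degrees `d a`: the ratios of their
coefficients are, for all `a` together, algebraically independent over `k`. The image lies in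
`H c = 0` for the `c` in a subset `C` of `A`, and it is contained in no `H a = 0` with `a ∉ C`; for all
prime divisors `P` of `X`, the `e a`, `a ∉ C`, are all zero, or the sum of the `e a / m a` is at least
`1 - Δ_P`, where the `m a ≥ 1` are integers with

  `2 r + 1 - p < ∑_{c ∈ C} (d c + 1) + ∑_{a ∉ C} d a (1 - 1 / m a)`.

For example, for hyperplanes of `P^n` of multiplicities `m a = 2`, more than `4 n + 2 - 2 p` very
general hyperplanes are enough.

`X` is given by its function field `K` and its generic point `y`; its prime divisors are places of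
`K`, and the definitions of `Pool.Agent.Y172` are used.

Proof of (1): for general forms there are polynomials `R (u, u')` in a vector and its derivative,
homogeneous and isobaric, which vanish with high order on the tangent vectors of many of the
hypersurfaces, such that no independent `u`, `u'` are a common zero; they give symmetric
differentials with values in a negative line bundle, regular on the orbifold, and a resultant gives
sections of multiples of the canonical bundle of the orbifold base. In (2) there is a determinant in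
derivations which are dual to the coefficients of the forms (the method of Voisin, as in the starting
files on generic log complete intersections), and again a section of a negative twist of a
multiple of the canonical bundle of the orbifold base. The rest of the proof is that of the starting
file `SmallMultiplicityWeakAbundance`: products with forms along the fibres, and an upper bound for
the numerical dimension.
-/

set_option autoImplicit false

open FF MvPolynomial Pool.Agent.W602.GT Pool.Agent.W603.PV Pool.Agent.Y172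
open Pool.Agent.V8H90.HY (ForGeneral)
open Pool.Agent.TH145.MG (DimLE)

namespace Pool.Agent.Results.MP_bc213e_ag.HypersurfaceMembers

section

variable {K : Type} [Field K] [Algebra ℂ K]

/-- The function field of the image of the map with the homogeneous coordinates `b j`. -/
noncomputable def ImageField {n : ℕ} (b : Fin (n + 1) → K) : IntermediateField ℂ K :=
  IntermediateField.adjoin ℂ {f : K | ∃ i j, b j ≠ 0 ∧ f = b i / b j}

/-- The multiplicity of the prime divisor `P` in the member which is given by the form `H a` of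
degree `d a`, of the linear system without fixed components given by the `b j`: the order of
`H a (b)` at `P`, minus `d a` times the smallest of the orders of the `b j`. -/
noncomputable def mult {n : ℕ} {A : Type} (H : A → MvPolynomial (Fin (n + 1)) ℂ) (d : A → ℕ)
    (b : Fin (n + 1) → K) (P : Place ℂ K) (a : A) : ℤ :=
  P.ord (aeval b (H a)) - d a * pord P b

/-- `(X, Δ)` is a projective log canonical pair of dimension `D`, where `y` is the generic point of
`X`. -/
def LcPair {N : ℕ} (y : Fin (N + 1) → K) (D : ℕ) (Δ : Place ℂ K → ℚ) : Prop :=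
  NormalModel y ∧ Algebra.trdeg ℂ K = D ∧ Effective y Δ ∧ LogCanonical y D Δ

/-- The function field of `X` is generated by functions `t j` and the elements which are algebraic
over `L`, and the prime divisors of `X` which are zeros or poles of some `t j` and are trivial on `L`
have coefficient at least `1` in `Δ`. -/
def VeryAffineFibres {N : ℕ} (y : Fin (N + 1) → K) (Δ : Place ℂ K → ℚ)
    (L : IntermediateField ℂ K) : Prop :=
  ∃ (r : ℕ) (t : Fin r → K), (∀ j, t j ≠ 0) ∧
    IntermediateField.adjoin ℂ ({x : K | IsAlgebraic L x} ∪ Set.range t) = ⊤ ∧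
    ∀ P, IsPrimeDivisor y P → (∀ f ∈ L, f ≠ 0 → P.ord f = 0) → (∃ j, P.ord (t j) ≠ 0) → 1 ≤ Δ P

/-- The Kodaira dimension of `K_X + Δ` is a natural number `κ ≥ p`, in particular `K_X + Δ` is
`ℚ`-effective, and `κ` is equal to the numerical dimension of `K_X + Δ` (computed with any effective
integral divisor). -/
def WeaklyAbundant {N : ℕ} (y : Fin (N + 1) → K) (D : ℕ) (Δ : Place ℂ K → ℚ) (p : ℕ) : Prop :=
  ∃ κ : ℕ, p ≤ κ ∧ kodairaDim y D Δ = (κ : WithBot ℕ) ∧
    ∀ M, Effective y M → Integral y M → numericalDim y D Δ M = (κ : EReal)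

/-- The forms `H a` of degrees `d a` are very general with respect to `k`: the ratios of the
coefficients of `H a` to one of them are, for all `a` together, algebraically independent over
`k`. -/
def VeryGeneral {n : ℕ} {A : Type} (k : Type) [Field k] [Algebra k ℂ]
    (H : A → MvPolynomial (Fin (n + 1)) ℂ) (d : A → ℕ) : Prop :=
  (∀ a, (H a).IsHomogeneous (d a)) ∧ ∃ I0 : ∀ a, {I : Fin (n + 1) →₀ ℕ // I.degree = d a},
    (∀ a, (H a).coeff (I0 a).1 ≠ 0) ∧ AlgebraicIndependent k
      fun p : (a : A) × {I : {I : Fin (n + 1) →₀ ℕ // I.degree = d a} // I ≠ I0 a} =>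
        (H p.1).coeff p.2.1.1 / (H p.1).coeff (I0 p.1).1

/-- The linear form with the coefficients `ℓ i`. -/
noncomputable def linForm {n q : ℕ} (ℓ : Fin q → Fin (n + 1) → ℂ) (i : Fin q) :
    MvPolynomial (Fin (n + 1)) ℂ :=
  ∑ j, MvPolynomial.C (ℓ i j) * X j

theorem aeval_lin {n q : ℕ} (ℓ : Fin q → Fin (n + 1) → ℂ) (i : Fin q) (b : Fin (n + 1) → K) :
    aeval b (linForm ℓ i) = ∑ j, algebraMap ℂ K (ℓ i j) * b j := by
  unfold linForm
  rw [map_sum]
  refine Finset.sum_congr rfl fun j _ => ?_
  rw [map_mul, aeval_X]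
  congr 1
  exact aeval_C b (ℓ i j)

end

theorem result :
    -- (1) general hypersurfaces, quadratically many
    (∀ (n q m : ℕ) (d : Fin q → ℕ), 1 ≤ n → 2 ≤ m → (∀ i, 1 ≤ d i) →
      2 * n * (2 * n + 1) * m ^ 2 ≤ (m - 1) ^ 2 * (q - (2 * n + 3)) →
      ForGeneral (v := n) d fun H =>
      ∀ (K : Type) [Field K] [Algebra ℂ K] (N D p : ℕ) (y : Fin (N + 1) → K)
        (Δ : Place ℂ K → ℚ) (b : Fin (n + 1) → K), 1 ≤ p → LcPair y D Δ → b ≠ 0 →
        Algebra.trdeg ℂ (ImageField b) = p →
        (∀ P, IsPrimeDivisor y P → ∀ i, aeval b (H i) ≠ 0 → mult H d b P i = 0 ∨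
          (m : ℚ) * (1 - Δ P) ≤ mult H d b P i) →
        VeryAffineFibres y Δ (ImageField b) → WeaklyAbundant y D Δ p) ∧
    -- (2) very general hypersurfaces in a projective variety, linearly many
    (∀ (k : Type) [Field k] [Algebra k ℂ] (n r : ℕ) (V : Set (MvPolynomial (Fin (n + 1)) k)),
      (∀ f ∈ V, ∃ e, f.IsHomogeneous e) → DimLE k V r →
      ∀ (A : Type) [Fintype A] [DecidableEq A] (d : A → ℕ) (H : A → MvPolynomial (Fin (n + 1)) ℂ),
      VeryGeneral k H d → ∀ (C : Finset A) (m : A → ℕ), (∀ a, 1 ≤ m a) →
      ∀ (K : Type) [Field K] [Algebra ℂ K] (N D p : ℕ) (y : Fin (N + 1) → K)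
        (Δ : Place ℂ K → ℚ) (b : Fin (n + 1) → K), 1 ≤ p →
        (2 * r + 1 - p : ℚ) < ∑ c ∈ C, ((d c : ℚ) + 1) + ∑ a ∈ Cᶜ, (d a : ℚ) * (1 - 1 / m a) →
        LcPair y D Δ → b ≠ 0 → Algebra.trdeg ℂ (ImageField b) = p →
        (∀ f ∈ V, aeval b (map (algebraMap k ℂ) f) = 0) → (∀ c ∈ C, aeval b (H c) = 0) →
        (∀ a, a ∉ C → aeval b (H a) ≠ 0) →
        (∀ P, IsPrimeDivisor y P → (∀ a, a ∉ C → mult H d b P a = 0) ∨
          1 - Δ P ≤ ∑ a ∈ Cᶜ, (mult H d b P a : ℚ) / m a) →
        VeryAffineFibres y Δ (ImageField b) → WeaklyAbundant y D Δ p) ∧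
    -- (3) the number of general hyperplanes
    ∀ n q m : ℕ, 1 ≤ n → 2 ≤ m → 4 * m ^ 2 * n ^ 2 + 2 * n ≤ (m - 1) ^ 2 * (q - 3) →
      ∃ Ψ : MvPolynomial (Fin q × Fin (n + 1)) ℂ, Ψ ≠ 0 ∧
      ∀ ℓ : Fin q → Fin (n + 1) → ℂ, eval (fun x => ℓ x.1 x.2) Ψ ≠ 0 →
      ∀ (K : Type) [Field K] [Algebra ℂ K] (N D p : ℕ) (y : Fin (N + 1) → K)
        (Δ : Place ℂ K → ℚ) (b : Fin (n + 1) → K), 1 ≤ p → LcPair y D Δ → b ≠ 0 →
        Algebra.trdeg ℂ (ImageField b) = p → (∀ i, aeval b (linForm ℓ i) ≠ 0) →
        (∀ P, IsPrimeDivisor y P → ∀ i, mult (linForm ℓ) (fun _ => 1) b P i = 0 ∨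
          (m : ℚ) * (1 - Δ P) ≤ mult (linForm ℓ) (fun _ => 1) b P i) →
        VeryAffineFibres y Δ (ImageField b) → WeaklyAbundant y D Δ p := by
  have hne : ∀ {K : Type} [Field K] {n : ℕ} {b : Fin (n + 1) → K}, b ≠ 0 → ∃ j, b j ≠ 0 := by
    intro K _ n b hb
    by_contra hcon
    push Not at hcon
    exact hb (funext hcon)
  refine ⟨fun n q m d hn hm hd hq => ?_, ?_, fun n q m hn hm hq => ?_⟩
  · obtain ⟨M, rfl⟩ : ∃ M, m = M + 1 := ⟨m - 1, by omega⟩
    refine (Pool.Agent.V8H90.HY.good_forms' hn (by omega) hd hq).mono fun H hH ⟨hc, e, L, D', q0,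
      b0, h1, h2, h3, h4, hG⟩ => ?_
    rintro K _ _ N D p y Δ b hp ⟨hy, hD, hΔ, hLC⟩ hb htr hmult ⟨s, t, ht, hgen, h7⟩
    refine Pool.Agent.V8H90.HY.weak_caseF hG hn h1 h2 h3 h4 hp hy hD hΔ hLC (hne hb) htr
      (fun P hP j0 hj0 hmin i hi => ?_) ht hgen h7
    have hpo : pord P b = P.ord (b j0) := by
      refine le_antisymm (pord_le P hj0) ?_
      obtain ⟨j, hj, h8⟩ := exists_pord P (hne hb)
      rw [← h8]
      exact (hmin j).resolve_left hj
    rcases hmult P hP i hi with h8 | h8
    · left
      unfold mult at h8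
      rw [hpo] at h8
      linarith
    · right
      unfold mult at h8
      rw [hpo] at h8
      have h9 : (((M + 1 : ℕ) : ℚ) * (1 - Δ P) : ℚ) ≤
          ((P.ord (aeval b (H i)) - d i * P.ord (b j0) : ℤ) : ℚ) := h8
      have h10 : ((((M + 1 : ℕ) : ℚ) * (1 - Δ P) : ℚ) : ℝ) ≤
          (((P.ord (aeval b (H i)) - d i * P.ord (b j0) : ℤ) : ℚ) : ℝ) := by exact_mod_cast h9
      push_cast at h10
      exact h10
  · rintro k _ _ n r V hVh hV A _ _ d H hH C m hm K _ _ N D p y Δ b hp hT ⟨hy, hD, hΔ, hLC⟩ hb htr
      hbV hbC hbn hmul ⟨s, t, ht, hgen, h7⟩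
    exact Pool.Agent.V8H90.VG.weak_gen hy hD hΔ hLC hH hVh hV hp (hne hb) htr hbV hbC hbn hm
      (by linarith) hmul ht hgen h7
  · obtain ⟨d, q0, M, b0, rfl, h1, h2, h3, h4, h5, h6⟩ := Pool.Agent.V8H90.AJ.enough hn hm hq
    obtain ⟨Ψ, hΨ, hgood⟩ := Pool.Agent.V8H90.AJ.good_general (q := q) hn h5 h6
    refine ⟨Ψ, hΨ, ?_⟩
    rintro ℓ hℓ K _ _ N D p y Δ b hp ⟨hy, hD, hΔ, hLC⟩ hb htr hbn hmult ⟨s, t, ht, hgen, h7⟩
    refine Pool.Agent.V8H90.AJ.weak_case (hgood ℓ hℓ) h1 h2 h3 h4 hp hy hD hΔ hLC
      (fun i => (aeval_lin ℓ i b).symm.trans_ne (hbn i)) (hne hb) htr ?_ ht hgen h7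
    rintro P hP c e ⟨o1, ⟨j, hj, hjc⟩, o3⟩ i
    have hpo : pord P b = c := by
      refine le_antisymm (hjc ▸ pord_le P hj) ?_
      obtain ⟨j', hj', h8⟩ := exists_pord P (hne hb)
      rw [← h8]
      exact o1 j' hj'
    have hmu : mult (linForm ℓ) (fun _ => 1) b P i = e i := by
      have h9 : P.ord (aeval b (linForm ℓ i)) = c + e i := by
        rw [aeval_lin]
        exact o3 i
      unfold mult
      rw [h9, hpo]
      push_cast
      ring
    have h8 := hmult P hP i
    rw [hmu] at h8
    push_cast at h8
    exact h8.imp (fun h => by exact_mod_cast h) id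

end Pool.Agent.Results.MP_bc213e_ag.HypersurfaceMembers
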