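import Pool.Agent.V8H50.MA.Main
import Pool.Agent.Y191.DimGe

/-!
# Pairs fibred by moving arrangements over an arbitrary base pair, with the moduli part

Let `(X, Δ)` be a projective pair: `X` is a normal projective variety with function field `K`, `Δ` is
an effective `ℚ`-divisor (log canonical or not). Let `L ⊆ K` be a subfield with `trdeg L = p`, the
function field of a variety `Y` of dimension `p`, so that there is a dominant rational map `X ⇢ Y`.

* (the fibres) There is a correspondence between `X` and a relative product of projective spaces: a
  finite extension `K'` of `K`, and a generically finite rational map over `Y` of the variety with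
  function field `K'` to `Y' × P^{r_1} × ... × P^{r_c}`, `r_j ≥ 1`, `Y'` finite over `Y`. In each
  `P^{r_j}` there are hyperplanes `A j i = 0` which move with the point of `Y'`, with weights
  `w j i` in `[0, 1]`, such that the arrangements over the generic point of `Y'` are log canonical,
  and over the generic point of `Y` the pull-backs of `K_X + Δ` and of `K + ∑ w j i (A j i = 0)` are
  compared in codimension one as in `LcHor` and `Cor`. (For instance the generic fibre may be birational
  to a quotient with canonical singularities of a product of covers of projective spaces which are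
  branched uniformly over hyperplanes. The Kodaira dimension of the fibres may be any number.)
* (the base) `B` is any function on the prime divisors over `Y` such that `1 - Δ_P ≤ e (1 - B_v)` if the
  prime divisor `P` of `X` dominates the prime divisor `v` over `Y`, with ramification index `e`. For
  instance `B = 0`. If the orbifold multiplicity of `(X, Δ)` over `v` is at least `m_v`, then
  `B_v = 1 - 1 / m_v` is allowed. There is no condition on the singular fibres and on the base.
* (the moduli part) `I` is a family of `M` tuples of bases of hyperplanes, in which the multiplicity of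
  the hyperplane `A j i = 0` is at most `M w j i`. The product of the determinants of the bases is
  a semi-invariant of the arrangements. Its order at a place `v` is compared with the orders of the
  products for all other families `J` of bases with the same multiplicities: `g v` is at most the
  greatest difference, divided by `M` (`ModGe`). So `g` measures the variation of the arrangements
  (`g = 0` is always allowed). For families of elliptic curves `y ^ 2 = (x - a_1) ... (x - a_4)` over
  a curve the degree of `g` is that of the moduli part of the canonical bundle formula, a twelfth of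
  the degree of the `j`-invariant.

Then the following holds. (1) If `∑ i, w j i < r_j + 1` for some `j` then `κ(K_X + Δ) = -∞` and
`K_X + Δ` is not pseudo-effective. (2) If `∑ i, w j i ≥ r_j + 1` for all `j` then
`κ(X, K_X + Δ) ≥ κ(Y, K_Y + B + g)`. (3) In the situation of (2) let `big` be the sum of the `r_j` with
`∑ i, w j i > r_j + 1` (the Kodaira dimension of the general fibre). Then
`κ(X, K_X + Δ) ≥ κ(Y, K_Y + B + τ g) + big` for all `τ < 1`, in particular for `τ = 0`. (4) If
`K_Y + B + τ g` is big for some `τ < 1` then the abundance conjecture holds for `K_X + Δ`: the Kodaira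
dimension and the numerical dimension are equal to `p + big`.

So if the base satisfies `κ(Y, K_Y + B + g) ≥ 0` then nonvanishing holds: if `K_X + Δ` is
pseudo-effective (for instance nef) then `κ(K_X + Δ) ≥ 0`. Here the sections of multiples of
`K_Y + B + τ g` are pluricanonical forms of `L` whose poles are bounded at those prime divisors over
`Y` which are dominated by prime divisors of `X`.

The language and the definitions of `Pool.Agent.Y172` are used: `X` is given by the homogeneous
coordinates `y` of its generic point, with values in `K`; the prime divisors of `X` are places `P` of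
`K`, `P.ord` is the order along `P`. `numericalDim` is `⊥` if and only if `m (K_X + Δ) + A` has no
sections for almost all `m`.

Proof: the semi-invariant of `I` multiplied by a power of the form of the arrangements is, at the
places over `v`, the product of a function of order at least `M g v` and of determinants of
logarithmic derivatives (`movf_mod`). It is multiplied by high powers with the forms along the fibres
of `Pool.Agent.Y191` (`mod_main`), the norms to `K` (`push_gen`) are multiplied by the pull-backs of the
forms of the base (`comb`), which are computed in local coordinates at the places of `L` under the prime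
divisors of `X` (`base_ver`). These places are divisorial by the inequality of Abhyankar. If
`∑ i, w j i < r_j + 1` for some `j` then the traces of the sections of `m (K_X + Δ) + A` vanish
(`lc_ab`).
-/

set_option autoImplicit false

open FF Pool.Agent.W602.GT Pool.Agent.Y172 Pool.Agent.Y191 Pool.Agent.V8H50.MA

namespace Pool.Agent.Results.MP_bc213e_ag.MovingArrangements

section

variable {K : Type} [Field K] [Algebra ℂ K] {N : ℕ}

/-- `(X, Δ)` is a projective pair of dimension `n`: `X` is normal, with generic point `y`, and `Δ` is
an effective `ℚ`-divisor. -/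
def IsPair (y : Fin (N + 1) → K) (n : ℕ) (Δ : Place ℂ K → ℚ) : Prop :=
  NormalModel y ∧ Algebra.trdeg ℂ K = n ∧ Effective y Δ

/-- the prime divisors of `X` -/
def primes (y : Fin (N + 1) → K) : Set (Place ℂ K) := {P | IsPrimeDivisor y P}

/-- There is a finite extension `K'` of `K`, and the `u ⟨j, k⟩` are the affine coordinates of a
generically finite map, over the variety with the function field `L`, of a variety with the function
field `K'` to a product of projective spaces of dimensions `r j ≥ 1`; `A j i` are the coefficients of
hyperplanes, algebraic over `L`, with weights `w j i` in `[0, 1]` such that the arrangement is log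
canonical (`LcArr`). The pull-back of `K_X + Δ` to `K'` is compared with the pull-back of the canonical
divisor of the relative product plus `∑ w j i (A j i = 0)` at the places over the prime divisors of
`X` which are trivial on `L` (`LcHor`) and at the places over the prime divisors of the product
(`Cor`). The determinants of the tuples of the family `I` are not zero, and `g` is at most the moduli
part with respect to `I` at all prime divisors over the base which are under prime divisors of `X`. -/
def Fibres (y : Fin (N + 1) → K) (n p : ℕ) (Δ : Place ℂ K → ℚ) (L : IntermediateField ℂ K)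
    {c : ℕ} (r s : Fin c → ℕ) (w : ∀ j, Fin (s j) → ℚ) {M : ℕ}
    (I : Fin M → ∀ j, Fin (r j + 1) → Fin (s j)) (g : Place ℂ L → ℝ) : Prop :=
  (∀ j, 1 ≤ r j ∧ ∀ i, 0 ≤ w j i ∧ w j i ≤ 1) ∧
  ∃ (K' : Type) (_ : Field K') (_ : Algebra ℂ K') (_ : Algebra K K') (_ : IsScalarTower ℂ K K')
    (_ : FiniteDimensional K K') (A : ∀ j, Fin (s j) → Fin (r j + 1) → K')
    (u : (Σ j, Fin (r j)) → K'),
    LcArr (upF K' L) A w ∧ IsTranscendenceBasis (upF K' L) u ∧
    LcHor L A u w (primes y) (fun P => (Δ P : ℝ)) ∧
    Cor y n Δ (upF K' L) A u w ∧
    (∀ t, cdet A (I t) ≠ 0) ∧ ∀ v ∈ und L (primes y), Divisorial p v → ModGe L A I v (g v)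

/-- For the prime divisors `P` of `X` over the places `v` of the base, of ramification index `e`,
`1 - Δ_P ≤ e * (1 - B_v)`. -/
def BaseDiv (y : Fin (N + 1) → K) (Δ : Place ℂ K → ℚ) (L : IntermediateField ℂ K)
    (B : Place ℂ L → ℝ) : Prop :=
  ∀ P ∈ primes y, ∀ (v : Place ℂ L) (e : ℕ), Over P v e → 1 - (Δ P : ℝ) ≤ e * (1 - B v)

/-- The Kodaira dimension of `K_Y + B` is at least `a`, where `B` is a function on the places of the
function field `L` of `Y` and only the prime divisors over `Y` are considered which are dominated by
prime divisors of `X`: some positive multiple has sections with `a` algebraically independent ratios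
(a nonzero section, if `a = 0`). -/
def BaseGe (y : Fin (N + 1) → K) (L : IntermediateField ℂ K) (p : ℕ) (B : Place ℂ L → ℝ)
    (a : ℕ) : Prop :=
  KodairaGe p (und L (primes y)) B a

/-- the sum of the dimensions `r j` for which the sum of the weights is greater than `r j + 1` -/
def big {c : ℕ} (r s : Fin c → ℕ) (w : ∀ j, Fin (s j) → ℚ) : ℕ :=
  ∑ j, if (r j + 1 : ℚ) < ∑ i, w j i then r j else 0

end

theorem exists_idx {c : ℕ} (r q : Fin c → ℕ) (w : ∀ j, Fin (q j) → ℚ) :
    ∃ κ : Fin (big r q w) → Σ j, Fin (r j), Function.Injective κ ∧
      ∀ i, (r (κ i).1 + 1 : ℚ) < ∑ i', w (κ i).1 i' := by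
  classical
  have h1 : Fintype.card {x : Σ j, Fin (r j) // (r x.1 + 1 : ℚ) < ∑ i, w x.1 i} = big r q w := by
    rw [Fintype.card_subtype, Finset.card_filter, Fintype.sum_sigma]
    refine Finset.sum_congr rfl fun j _ => ?_
    change ∑ _k : Fin (r j), (if (r j + 1 : ℚ) < ∑ i, w j i then 1 else 0) = _
    rw [Finset.sum_const, Finset.card_univ, Fintype.card_fin, smul_eq_mul, mul_ite, mul_one,
      mul_zero]
  let φ := Fintype.equivFinOfCardEq h1
  exact ⟨fun i => (φ.symm i : Σ j, Fin (r j)), fun a b hab => φ.symm.injective (Subtype.ext hab),
    fun i => (φ.symm i).2⟩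

/-- **Nonvanishing and abundance for families of arrangements over an arbitrary base.** Let `(X, Δ)` be
a projective pair of dimension `p + ∑ j, r j`, `L` a subfield of the function field of transcendence
degree `p`, let the fibres be as in `Fibres` and `1 - Δ_P ≤ e (1 - B_v)` as in `BaseDiv`, let the
multiplicity of the hyperplane `i` of the `j`-th factor in `I` be at most `M * w j i`, and `g ≥ 0`.

(1) If `∑ i, w j i < r j + 1` for some `j` then `κ(K_X + Δ) = -∞` and `K_X + Δ` is not
pseudo-effective.

(2) If `r j + 1 ≤ ∑ i, w j i` for all `j` and `κ(K_Y + B + g) ≥ a` then `κ(K_X + Δ) ≥ a`.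

(3) If `r j + 1 ≤ ∑ i, w j i` for all `j` and `κ(K_Y + B + τ g) ≥ a`, `τ < 1`, then
`κ(K_X + Δ) ≥ a + big`, and if `a = p` then the Kodaira dimension of `K_X + Δ` and the numerical
dimension with respect to any effective integral divisor are equal to `p + big`. -/
theorem result (K : Type) [Field K] [Algebra ℂ K] (N p c : ℕ) (r s : Fin c → ℕ)
    (y : Fin (N + 1) → K) (Δ : Place ℂ K → ℚ) (hy : IsPair y (p + ∑ j, r j) Δ)
    (L : IntermediateField ℂ K) (hL : Algebra.trdeg ℂ L = p) (w : ∀ j, Fin (s j) → ℚ) (M : ℕ)
    (hM : 0 < M) (I : Fin M → ∀ j, Fin (r j + 1) → Fin (s j))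
    (hI : ∀ j i, (cnt I j i : ℚ) ≤ M * w j i) (g : Place ℂ L → ℝ) (hg : ∀ v, 0 ≤ g v)
    (hF : Fibres y (p + ∑ j, r j) p Δ L r s w I g) (B : Place ℂ L → ℝ)
    (hB : BaseDiv y Δ L B) :
    ((∃ j, ∑ i, w j i < (r j + 1 : ℚ)) → kodairaDim y (p + ∑ j, r j) Δ = ⊥ ∧
      ∀ H, Effective y H → numericalDim y (p + ∑ j, r j) Δ H = ⊥) ∧
    ((∀ j, (r j + 1 : ℚ) ≤ ∑ i, w j i) → ∀ a : ℕ,
      (BaseGe y L p (fun v => B v + g v) a →
        (a : WithBot ℕ) ≤ kodairaDim y (p + ∑ j, r j) Δ) ∧
      ∀ τ : ℝ, τ < 1 → BaseGe y L p (fun v => B v + τ * g v) a →
        ((a + big r s w : ℕ) : WithBot ℕ) ≤ kodairaDim y (p + ∑ j, r j) Δ ∧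
        (a = p → kodairaDim y (p + ∑ j, r j) Δ = ((p + big r s w : ℕ) : WithBot ℕ) ∧
          ∀ H, Effective y H → Integral y H →
            numericalDim y (p + ∑ j, r j) Δ H = ((p + big r s w : ℕ) : EReal))) := by
  obtain ⟨hw, K', _, _, _, _, _, A, u, hA, hu, hH, hC, hdet, hmod⟩ := hF
  have hess : Algebra.EssFiniteType ℂ K := hy.1.ess
  have hab := lc_ab hy.1 hy.2.1 hy.2.2 hA.1 hu (fun j => (hw j).1)
    (fun j i => ((hw j).2 i).1) (fun j i => ((hw j).2 i).2) hC
  refine ⟨hab.1, fun hws a => ⟨fun h => ?_, fun τ hτ h => ?_⟩⟩
  · refine lc_nv hy.1 hy.2.1 hy.2.2 hA.1 hu (fun j => (hw j).1)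
      (fun j i => ((hw j).2 i).1) (fun j i => ((hw j).2 i).2) hC hws (by omega) ?_
    exact mod_one hess hL hy.2.1 hM hA finSigmaFinEquiv hu (fun j i => ((hw j).2 i).1) hws hH hdet
      hI hmod hB h
  · obtain ⟨κ, hκ, hκs⟩ := exists_idx r s w
    have hK : KodairaGe (p + ∑ j, r j) (primes y) (fun P => (Δ P : ℝ)) (a + big r s w) :=
      mod_main hess hL hy.2.1 hM hA finSigmaFinEquiv hu (fun j i => ((hw j).2 i).1) hws hκ hκs hH
        hdet hI (fun v _ => hg v) hmod hB hτ h
    refine ⟨lc_nv hy.1 hy.2.1 hy.2.2 hA.1 hu (fun j => (hw j).1)
      (fun j i => ((hw j).2 i).1) (fun j i => ((hw j).2 i).2) hC hws (by omega) hK, fun hap => ?_⟩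
    subst hap
    have hna : a + ∑ j, r j = a + big r s w + ∑ j, (if ∑ i, w j i = r j + 1 then r j else 0) := by
      rw [add_assoc, big, ← Finset.sum_add_distrib]
      congr 1
      refine Finset.sum_congr rfl fun j _ => ?_
      rcases lt_or_eq_of_le (hws j) with h5 | h5
      · rw [if_pos h5, if_neg h5.ne', add_zero]
      · rw [if_neg (not_lt.2 h5.symm.le), if_pos h5.symm, zero_add]
    exact hab.2 _ hws hna hK

end Pool.Agent.Results.MP_bc213e_ag.MovingArrangements
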