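import Pool.Agent.V8H50.RL.Big

/-!
# Fibre spaces whose fibres have a linear system with powerful members

Let `X` be a projective variety of dimension `p + d` with function field `K`, `Δ` a real divisor on `X`
with the coefficients `δ P` (log canonical or not), and `L ⊆ K` any subfield of transcendence degree
`p`, the function field of a variety `Y`; so there is a dominant rational map `X ⇢ Y`, and the general
fibres have dimension `d`.

* (the fibres) There are a finite extension `K'` of `K` (for instance `K' = K`), and functions
  `x 0, …, x n` in `K'`, linearly independent over the functions which are algebraic over `L`, which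
  define over `Y` a generically finite rational map of the variety with function field `K'` to the
  product of (a cover of) `Y` and `n`-dimensional projective space. The image of the general fibre is
  any nondegenerate subvariety of dimension `d` of projective space. Let `A i` (`i < q`) be the
  coefficients of hyperplanes which may move with the point of `Y` (functions algebraic over `L`), with
  weights `w i ≥ 0` such that the arrangement is log canonical, `∑ w i ≥ n + 1`. The pull-backs
  of the hyperplanes are members of the linear system on the fibres. The condition `Hor` says that the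
  members are powerful: at a place `Q` of `K'` over a prime divisor `P` of `X` which dominates `Y`, of
  ramification index `ε`, let `e i` be the multiplicities of the members, and `mx e` the greatest sum of
  `n + 1` of them, for hyperplanes without a common point. If some `e i` is not `0` then
  `lam * ε (1 - δ P) ≤ mx e - ∑ w i * e i`, `lam = (n - d + 1) (n - d + 2) / 2`, otherwise
  `ε (1 - δ P) ≤ 1`. (If `K' = K` and no prime divisor is a component of several members, the condition
  is `lam (1 - δ P) ≤ (1 - w i) e i` for the components `P` of the `i`-th member.)
* (the base) `B` is any function on the prime divisors over `Y` such that `1 - δ P ≤ e (1 - B v)` if the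
  prime divisor `P` of `X` dominates the prime divisor `v` over `Y`, with ramification index `e`. For
  instance `B = 0` if `Δ ≥ 0`. There is no condition on the singular fibres and on the base.
* (the moduli part) `I` is a family of `M` bases of hyperplanes, in which the multiplicity of the
  hyperplane `i` is at most `M w i`; such families exist. The product of their determinants is a
  semi-invariant of the arrangement. Its order at a place `v` is compared with the orders of the
  products for all other families `J` of bases with the same multiplicities: `g v ≥ 0` is at most the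
  greatest difference, divided by `M` (`ModGe`). So `g` measures the variation of the arrangement
  (`g = 0` is always allowed).

Then the following holds. (1) `κ(X, K_X + Δ) ≥ κ(Y, K_Y + B + g / lam)`. (2) If `∑ w i > n + 1` then
`κ(X, K_X + Δ) ≥ κ(Y, K_Y + B + τ g / lam) + d` for all `τ < 1`. (3) More generally, if `s 0, …, s c` are
multiplicities such that the weights `s b / M₁` satisfy the same conditions, `∑ i, s b i = (n + 1) M₁`, and
the functions `∏ A_i(x) ^ (s 0 i - s b i)`, `1 ≤ b ≤ c`, are algebraically independent over `L`, then
`κ(X, K_X + Δ) ≥ κ(Y, K_Y + B + τ g / lam) + c`.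

In particular nonvanishing holds for `K_X + Δ` if `κ(Y, K_Y + B + g / lam) ≥ 0`, and `K_X + Δ` is big in
the situation of (2) if `K_Y + B + τ g / lam` is big. If `Y` is a point this is nonvanishing for
linear systems with powerful members (`LinearSystemNonvanishing` of the starting files, with
different weights). The abundance conjecture is not known for the general fibres.

`K` is the function field of `X`; the prime divisors of `X` are places `P` of `K`, and `X` is given by the
set of its prime divisors; `P.ord` is the order along `P`. The sections of multiples of
`K_Y + B + τ g / lam` are pluricanonical forms of `L` whose poles are bounded at those prime divisors over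
`Y` which are dominated by prime divisors of `X` (`und L X`).

Proof (`Pool.Agent.V8H50.RL`): the forms along the fibres are powers of generalised Wronskians of `x`
with respect to vector fields along the fibres, divided by products of the members, and multiplied by the
determinants of bases of members. The rows are `x`, the derivatives `G x` along `d` vector fields, and
`n - d` words in the first order operators of helper152 (`Pool.Agent.TH152.HY.Words`), of minimal total
length; so the form is multiplied by a power of the determinant under a change of the vector fields.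
At the places over `v` it is a product of a function of order at least `M g v` and of
Wronskians of bases of members divided by their product, on logarithmic vector fields. At the other
places logarithmic vector fields are compared with the lifts of regular vector fields (`fm_hor`,
`log_to_reg`). The norms to `K` are multiplied by the pull-backs of the forms of the base.
-/

set_option autoImplicit false

open FF Pool.Agent.W602.GT Pool.Agent.Y191 Pool.Agent.V8H50.MA Pool.Agent.V8H50.RL

namespace Pool.Agent.Results.MP_bc213e_ag.RelativeLinearSystems

section

variable {K K' : Type} [Field K] [Field K'] [Algebra ℂ K] [Algebra ℂ K'] [Algebra K K']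
  [IsScalarTower ℂ K K'] {n q : ℕ}

/-- The functions `x k` are linearly independent over the functions which are algebraic over `L`, and
define a generically finite map along the fibres; the `A i` are hyperplanes, with coefficients which are
algebraic over `L`. -/
def Family (L : IntermediateField ℂ K) (A : Fin q → Fin (n + 1) → K') (x : Fin (n + 1) → K') :
    Prop :=
  (∀ c : Fin (n + 1) → K', (∀ j, IsAlgebraic (upF K' L) (c j)) → ∑ j, c j * x j = 0 → c = 0) ∧
  Algebra.IsAlgebraic (IntermediateField.adjoin (upF K' L) {z | ∃ i j, z = x i / x j}) K' ∧
  ∀ i, (∃ k, A i k ≠ 0) ∧ ∀ k, IsAlgebraic (upF K' L) (A i k)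

/-- the number `(n - d + 1) (n - d + 2) / 2` -/
noncomputable def lam (n d : ℕ) : ℝ := ((n : ℝ) - d + 1) * ((n : ℝ) - d + 2) / 2

/-- For the prime divisors `P` of `X` over the places `v` of the base, of ramification index `e`,
`1 - δ P ≤ e * (1 - B v)`. -/
def BaseDiv (X : Set (Place ℂ K)) (δ : Place ℂ K → ℝ) (L : IntermediateField ℂ K)
    (B : Place ℂ L → ℝ) : Prop :=
  ∀ P ∈ X, ∀ (v : Place ℂ L) (e : ℕ), Over P v e → 1 - δ P ≤ e * (1 - B v)

end

/-- **Nonvanishing for fibre spaces whose fibres have a linear system with powerful members.** Let
`X ⇢ Y` be given by the subfield `L` of the function field `K` of `X`, `dim X = p + d`, `dim Y = p`, let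
`x` be a family of linear systems of dimension `n ≥ d` along the fibres, on a finite extension `K'`
of `K`, with members `A i`, `w` weights which satisfy `Good`: they are log canonical, with
`∑ w i ≥ n + 1`, and satisfy the condition `Hor` on the multiplicities. Let `g ≥ 0` be at most the moduli
part with respect to a family `I` of bases, and `1 - δ P ≤ e (1 - B v)` as in `BaseDiv`.

(1) If `κ(K_Y + B + g / lam) ≥ a` then `κ(K_X + Δ) ≥ a`.

(2) If `n + 1 < ∑ w i` and `κ(K_Y + B + τ g / lam) ≥ a`, `τ < 1`, then `κ(K_X + Δ) ≥ a + d`.

(3) If the weights `s b i / M₁` satisfy `Good` and have the sum `n + 1` for `b = 0, …, c`, the quotients of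
the monomials in the members with the exponents `s 0` and `s b` are algebraically independent, and
`κ(K_Y + B + τ g / lam) ≥ a`, `τ < 1`, then `κ(K_X + Δ) ≥ a + c`. -/
theorem result (K K' : Type) [Field K] [Field K'] [Algebra ℂ K] [Algebra ℂ K'] [Algebra K K']
    [IsScalarTower ℂ K K'] [FiniteDimensional K K'] (hess : Algebra.EssFiniteType ℂ K)
    (p d n q : ℕ) (hdn : d ≤ n) (hK : Algebra.trdeg ℂ K = (p + d : ℕ))
    (L : IntermediateField ℂ K) (hL : Algebra.trdeg ℂ L = p)
    (A : Fin q → Fin (n + 1) → K') (x : Fin (n + 1) → K') (hA : Family L A x)
    (X : Set (Place ℂ K)) (δ : Place ℂ K → ℝ) (w : Fin q → ℚ)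
    (hw : Good L A x w (lam n d) X δ) (M : ℕ) (hM : 0 < M) (I : Fin M → Fin (n + 1) → Fin q)
    (hI : ∀ t, dI A (I t) ≠ 0) (hIw : ∀ i, (cnt I i : ℚ) ≤ M * w i)
    (g : Place ℂ L → ℝ) (hg0 : ∀ v, 0 ≤ g v)
    (hg : ∀ v ∈ und L X, Divisorial p v → ModGe L A I v (g v))
    (B : Place ℂ L → ℝ) (hB : BaseDiv X δ L B) (a : ℕ) :
    (KodairaGe p (und L X) (fun v => B v + g v / lam n d) a → KodairaGe (p + d) X δ a) ∧
    ∀ τ : ℝ, τ < 1 → KodairaGe p (und L X) (fun v => B v + τ * (g v / lam n d)) a →
      ((n + 1 : ℚ) < ∑ i, w i → KodairaGe (p + d) X δ (a + d)) ∧
      ∀ (M₁ c : ℕ) (s : Fin (c + 1) → Fin q → ℕ), 0 < M₁ →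
        (∀ b, ∑ i, s b i = (n + 1) * M₁) →
        (∀ b, Good L A x (fun i => (s b i : ℚ) / M₁) (lam n d) X δ) →
        (AlgebraicIndependent (upF K' L) fun b : Fin c =>
          (∏ i, mv A x i ^ s 0 i) / ∏ i, mv A x i ^ s b.succ i) →
        KodairaGe (p + d) X δ (a + c) := by
  obtain ⟨k, rfl⟩ := Nat.exists_eq_add_of_le hdn
  have hΛ : ((k + 1) * (k + 2) : ℝ) = 2 * lam (d + k) d := by
    unfold lam
    push_cast
    ring
  obtain ⟨hli, hgf, hA⟩ := hA
  refine ⟨fun h => rel_one rfl hess hL hK hM (fun i => (hA i).2) (fun i => (hA i).1) hgf hli hΛ hw
    hI hIw (fun v _ => hg0 v) hg hB h, fun τ hτ h => ?_⟩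
  have key : ∀ (M₁ c : ℕ) (s : Fin (c + 1) → Fin q → ℕ), 0 < M₁ →
        (∀ b, ∑ i, s b i = (d + k + 1) * M₁) →
        (∀ b, Good L A x (fun i => (s b i : ℚ) / M₁) (lam (d + k) d) X δ) →
        (AlgebraicIndependent (upF K' L) fun b : Fin c =>
          (∏ i, mv A x i ^ s 0 i) / ∏ i, mv A x i ^ s b.succ i) →
        KodairaGe (p + d) X δ (a + c) := fun M₁ c s hM₁ hs hsw hind =>
    rel_main rfl hess hL hK hM (fun i => (hA i).2) (fun i => (hA i).1) hgf hli hΛ hw
      hI hIw (fun v _ => hg0 v) hg hB hM₁ hs hsw hind hτ h
  refine ⟨fun hbig => ?_, key⟩
  obtain ⟨M₁, s, h1, h2, h3, h4⟩ := exists_s (trdeg_sub hL hK) (fun i => (hA i).2)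
    (fun i => (hA i).1) hgf hli hw hbig
  exact key M₁ d s h1 h2 h3 h4

end Pool.Agent.Results.MP_bc213e_ag.RelativeLinearSystems
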