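import Pool.Agent.V8H84.ST.Main

/-!
# Nonvanishing and semistable multivalued orbifold tensors

`X` is a normal projective variety of dimension `n ≥ 1` with function field `K` (`y` is its generic
point), `Δ` an effective `ℚ`-divisor and `Λ` any `ℚ`-divisor on `X`. A multivalued orbifold tensor of
order `r` on `(X, Δ)`, twisted by `Λ`, is a section of `(Ω(X, Δ) ⊗ O(-Λ)) ^ ⊗ r` with values in a
finite extension `L` of `K` (`IsOrbifoldTensor`). A finite family `τ` of them is semistable at the
generic point if a relative invariant `F` of positive weight (`IsInvariant`, a polynomial in the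
components which is multiplied by `det ^ N` under the linear group) does not vanish at it
(`value F τ`).

* If the family is semistable at the generic point, then `K_X + Δ - n Λ` is `ℚ`-effective. If
  moreover `κ(Λ) ≥ 0`, then `κ(K_X + Δ)` is at least the number of the algebraically independent
  functions among the quotients of the invariants of the same weight and the quotients of the
  sections of a multiple of `Λ`.
* This holds if multivalued one-forms `ω k`, which are sections of `Ω(X, Δ) ⊗ O(-Λ)`, have no common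
  zero on the rational vector fields; then also `κ(K_X + Δ) ≥ κ(Λ)`.
* Conversely, if the coefficients of `Δ` are at most `1`, in particular if `(X, Δ)` is log canonical,
  then `κ(K_X + Δ)` is the largest variation of the orbifold tensors on `(X, Δ)`: the nonvanishing
  holds for `(X, Δ)` if and only if there is a family of orbifold tensors on `(X, Δ)` which is
  semistable at the generic point.
-/

set_option autoImplicit false

open FF Pool.Agent.W602.GT Pool.Agent.Y172 Pool.Agent.V8H84.ST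
open Pool.Agent.R887 (IsFunctionSection IitakaGe)

namespace Pool.Agent.Results.MP_bc213e_ag.SemistableTensors

theorem result {K : Type} [Field K] [Algebra ℂ K] {n M : ℕ} (hn1 : 1 ≤ n) {y : Fin (M + 1) → K}
    (hy : NormalModel y) (hn : Algebra.trdeg ℂ K = n) {Δ : Place ℂ K → ℚ} (hΔ : Effective y Δ) :
    -- twisted multivalued orbifold tensors
    (∀ (L : Type) [Field L] [Algebra ℂ L] [Algebra K L] [IsScalarTower ℂ K L]
      [FiniteDimensional K L] (Λ : Place ℂ K → ℚ) (s : ℕ) (r : Fin s → ℕ)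
      (τ : ∀ k, MultilinearMap K (fun _ : Fin (r k) => Derivation ℂ K K) L),
      (∀ k, IsOrbifoldTensor y Δ Λ (τ k)) →
      ∀ (N : ℕ) (F₀ : MvPolynomial (Idx r n) ℂ) (D : Fin n → Derivation ℂ K K), 1 ≤ N →
        IsInvariant F₀ N → value F₀ τ D ≠ 0 →
        (∃ m, 1 ≤ m ∧ ∃ Φ : (Fin n → Derivation ℂ K K) → K,
          IsSection y n m (m • (Δ - n • Λ)) Φ ∧ Φ D ≠ 0) ∧
        ∀ (m : ℕ) (g₀ : K), 1 ≤ m → IsFunctionSection y (m • Λ) g₀ → g₀ ≠ 0 →
          ∀ (c : ℕ) (h : Fin c → L), AlgebraicIndependent ℂ h →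
            (∀ l, (∃ F, IsInvariant F N ∧ h l = value F τ D / value F₀ τ D) ∨
              ∃ g, IsFunctionSection y (m • Λ) g ∧ h l = algebraMap K L (g / g₀)) →
            KappaGe y n Δ c ∧ (c : WithBot ℕ) ≤ kodairaDim y n Δ) ∧
    -- twisted multivalued one-forms
    (∀ (L : Type) [Field L] [Algebra ℂ L] [Algebra K L] [IsScalarTower ℂ K L]
      [FiniteDimensional K L] (Λ : Place ℂ K → ℚ) (s : ℕ)
      (ω : Fin s → MultilinearMap K (fun _ : Fin 1 => Derivation ℂ K K) L),
      (∀ k, IsOrbifoldTensor y Δ Λ (ω k)) →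
      (∀ D : Derivation ℂ K K, (∀ k, ω k (fun _ => D) = 0) → D = 0) →
        (∃ m, 1 ≤ m ∧ ∃ Φ : (Fin n → Derivation ℂ K K) → K,
          IsSection y n m (m • (Δ - n • Λ)) Φ ∧ Φ ≠ 0) ∧
        ∀ c : ℕ, IitakaGe y Λ c → KappaGe y n Δ c ∧ (c : WithBot ℕ) ≤ kodairaDim y n Δ) ∧
    -- the variation of the orbifold tensors
    (∀ (L : Type) [Field L] [Algebra ℂ L] [Algebra K L] [IsScalarTower ℂ K L]
      [FiniteDimensional K L] (c : ℕ), VariationGe y n Δ L c →
        KappaGe y n Δ c ∧ (c : WithBot ℕ) ≤ kodairaDim y n Δ) ∧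
    -- the converse
    ((LogCanonical y n Δ ∨ ∀ P, IsPrimeDivisor y P → Δ P ≤ 1) →
      (∀ c : ℕ, KappaGe y n Δ c ↔ VariationGe y n Δ K c) ∧
      (0 ≤ kodairaDim y n Δ ↔ VariationGe y n Δ K 0)) := by
  refine ⟨?_, ?_, ?_, ?_⟩
  · intro L _ _ _ _ _ Λ s r τ hτ N F₀ D hN hF₀ hD
    constructor
    · obtain ⟨m, hm, Φ, h1, h2, -⟩ := tensor_section (L := L) hy hn hτ hN (c := 0)
        (F := fun _ => F₀) (fun _ => hF₀) hD (by
          rw [algebraicIndependent_empty_type_iff]
          exact (algebraMap ℂ L).injective)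
      exact ⟨m, hm, Φ 0, h1 0, h2 0⟩
    · intro m g₀ hm hg₀ hg₀' c h hind hh
      have h1 := tensor_kappa (L := L) hy hn hn1 hτ hN hF₀ hD hm hg₀ hg₀' hind hh
      exact ⟨h1, h1.le hy hn hΔ⟩
  · intro L _ _ _ _ _ Λ s ω hω hinj
    obtain ⟨⟨m, hm, Φ, D, h1, h2⟩, h3⟩ := forms_main (L := L) hy hn hn1 hω hinj
    refine ⟨⟨m, hm, Φ, h1, fun h0 => h2 (by rw [h0]; rfl)⟩, fun c hc => ?_⟩
    exact ⟨h3 c hc, (h3 c hc).le hy hn hΔ⟩
  · intro L _ _ _ _ _ c h
    have h1 := variation_kappa hy hn h
    exact ⟨h1, h1.le hy hn hΔ⟩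
  · intro h
    have hΔ1 : ∀ P, IsPrimeDivisor y P → Δ P ≤ 1 := by
      rcases h with h | h
      · exact fun P hP => lc_le_one hy hn h hP
      · exact h
    exact ⟨fun c => ⟨variation_of_kappa hy hn hΔ.1 hΔ1, variation_kappa hy hn⟩,
      nonvanishing_iff hy hn hΔ hΔ1⟩

end Pool.Agent.Results.MP_bc213e_ag.SemistableTensors
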